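import Pool.Agent.Y142.SU.Stm

set_option autoImplicit false

open Matrix Polynomial
open Pool.Agent.Y142.ZS (Sim Generic)
open Pool.Agent.Y142.SU

namespace Pool.Agent.Y217.SU

section base
variable {F : Type} [Field F] {K : Type} [Field K] [Algebra F K] {N : ℕ}

/-- extension of scalars of a matrix -/
noncomputable def up (K : Type) [Field K] [Algebra F K] (Y : Matrix (Fin N) (Fin N) F) :
    Matrix (Fin N) (Fin N) K := Y.map (algebraMap F K)

/-- a functional applied to the entries -/
noncomputable def dn (lam : K →ₗ[F] F) (M : Matrix (Fin N) (Fin N) K) :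
    Matrix (Fin N) (Fin N) F := Matrix.of (fun i j => lam (M i j))

theorem up_eq (Y : Matrix (Fin N) (Fin N) F) : up K Y = (algebraMap F K).mapMatrix Y := rfl

theorem up_mul (A B : Matrix (Fin N) (Fin N) F) : up K (A * B) = up K A * up K B := by
  simp only [up_eq, map_mul]

theorem up_add (A B : Matrix (Fin N) (Fin N) F) : up K (A + B) = up K A + up K B := by
  simp only [up_eq, map_add]

theorem up_sub (A B : Matrix (Fin N) (Fin N) F) : up K (A - B) = up K A - up K B := by
  simp only [up_eq, map_sub]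

theorem up_neg (A : Matrix (Fin N) (Fin N) F) : up K (-A) = -up K A := by
  simp only [up_eq, map_neg]

theorem up_zero : up K (0 : Matrix (Fin N) (Fin N) F) = 0 := by
  simp only [up_eq, map_zero]

theorem up_one : up K (1 : Matrix (Fin N) (Fin N) F) = 1 := by
  simp only [up_eq, map_one]

theorem up_smul (r : F) (A : Matrix (Fin N) (Fin N) F) :
    up K (r • A) = algebraMap F K r • up K A := by
  ext i j
  simp [up]

theorem up_transpose (A : Matrix (Fin N) (Fin N) F) : up K Aᵀ = (up K A)ᵀ := rfl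

theorem up_det (A : Matrix (Fin N) (Fin N) F) : (up K A).det = algebraMap F K A.det := by
  rw [up_eq, ← RingHom.map_det]

theorem up_trace (A : Matrix (Fin N) (Fin N) F) : (up K A).trace = algebraMap F K A.trace := by
  simp [up, Matrix.trace, map_sum]

theorem up_inv (A : Matrix (Fin N) (Fin N) F) (h : A.det ≠ 0) : up K A⁻¹ = (up K A)⁻¹ := by
  symm
  apply Matrix.inv_eq_left_inv
  rw [← up_mul, Matrix.nonsing_inv_mul _ (isUnit_iff_ne_zero.mpr h), up_one]

theorem dn_add (lam : K →ₗ[F] F) (A B : Matrix (Fin N) (Fin N) K) :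
    dn lam (A + B) = dn lam A + dn lam B := by
  ext i j
  simp [dn]

theorem dn_zero (lam : K →ₗ[F] F) : dn lam (0 : Matrix (Fin N) (Fin N) K) = 0 := by
  ext i j
  simp [dn]

theorem dn_smul (lam : K →ₗ[F] F) (w : K) (A : Matrix (Fin N) (Fin N) K) :
    dn lam (w • A) = dn (lam ∘ₗ LinearMap.mulLeft F w) A := by
  ext i j
  simp [dn]

theorem dn_up (lam : K →ₗ[F] F) (A : Matrix (Fin N) (Fin N) F) :
    dn lam (up K A) = lam 1 • A := by
  ext i j
  simp only [dn, up, of_apply, map_apply, Matrix.smul_apply, smul_eq_mul]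
  rw [Algebra.algebraMap_eq_smul_one, map_smul, smul_eq_mul, mul_comm]

theorem lam_mul (lam : K →ₗ[F] F) (a : F) (w : K) : lam (algebraMap F K a * w) = a * lam w := by
  rw [← Algebra.smul_def, map_smul, smul_eq_mul]

theorem dn_up_mul (lam : K →ₗ[F] F) (A : Matrix (Fin N) (Fin N) F)
    (M : Matrix (Fin N) (Fin N) K) : dn lam (up K A * M) = A * dn lam M := by
  ext i j
  simp only [dn, up, of_apply, mul_apply, map_apply, map_sum, lam_mul]

theorem dn_mul_up (lam : K →ₗ[F] F) (A : Matrix (Fin N) (Fin N) F)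
    (M : Matrix (Fin N) (Fin N) K) : dn lam (M * up K A) = dn lam M * A := by
  ext i j
  simp only [dn, up, of_apply, mul_apply, map_apply, map_sum]
  apply Finset.sum_congr rfl
  intro k _
  rw [mul_comm, lam_mul, mul_comm]

/-- extension of scalars of a subspace -/
noncomputable def ups (K : Type) [Field K] [Algebra F K]
    (V : Submodule F (Matrix (Fin N) (Fin N) F)) : Submodule K (Matrix (Fin N) (Fin N) K) :=
  Submodule.span K (up K '' (V : Set (Matrix (Fin N) (Fin N) F)))

theorem up_mem {V : Submodule F (Matrix (Fin N) (Fin N) F)} {A : Matrix (Fin N) (Fin N) F}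
    (h : A ∈ V) : up K A ∈ ups K V := Submodule.subset_span ⟨A, h, rfl⟩

theorem ups_ind {V : Submodule F (Matrix (Fin N) (Fin N) F)}
    (P : Matrix (Fin N) (Fin N) K → Prop) (h1 : ∀ A ∈ V, P (up K A)) (h0 : P 0)
    (ha : ∀ A B, P A → P B → P (A + B)) (hs : ∀ (w : K) A, P A → P (w • A))
    {M : Matrix (Fin N) (Fin N) K} (hM : M ∈ ups K V) : P M := by
  refine Submodule.span_induction (p := fun x _ => P x) ?_ h0 (fun x y _ _ hx hy => ha x y hx hy)
    (fun w x _ hx => hs w x hx) hM
  rintro _ ⟨A, hA, rfl⟩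
  exact h1 A hA

theorem dn_mem {V : Submodule F (Matrix (Fin N) (Fin N) F)} {M : Matrix (Fin N) (Fin N) K}
    (hM : M ∈ ups K V) : ∀ lam : K →ₗ[F] F, dn lam M ∈ V := by
  refine ups_ind (fun M => ∀ lam : K →ₗ[F] F, dn lam M ∈ V) ?_ ?_ ?_ ?_ hM
  · intro A hA lam
    rw [dn_up]
    exact V.smul_mem _ hA
  · intro lam
    rw [dn_zero]
    exact V.zero_mem
  · intro A B hA hB lam
    rw [dn_add]
    exact V.add_mem (hA lam) (hB lam)
  · intro w A hA lam
    rw [dn_smul]
    exact hA _

theorem mem_of_up_mem {V : Submodule F (Matrix (Fin N) (Fin N) F)}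
    {X : Matrix (Fin N) (Fin N) F} (h : up K X ∈ ups K V) : X ∈ V := by
  obtain ⟨lam, hl⟩ := LinearMap.exists_leftInverse_of_injective (Algebra.linearMap F K)
    (LinearMap.ker_eq_bot.mpr (algebraMap F K).injective)
  have h1 : lam 1 = 1 := by
    have := LinearMap.congr_fun hl 1
    simpa using this
  have := dn_mem h lam
  rwa [dn_up, h1, one_smul] at this

theorem mem_ups_of_dn {V : Submodule F (Matrix (Fin N) (Fin N) F)}
    {M : Matrix (Fin N) (Fin N) K} (h : ∀ lam : K →ₗ[F] F, dn lam M ∈ V) : M ∈ ups K V := by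
  classical
  set b := Module.Basis.ofVectorSpace F K with hb
  set s : Finset (Module.Basis.ofVectorSpaceIndex F K) :=
    Finset.univ.biUnion (fun i : Fin N => Finset.univ.biUnion (fun j : Fin N =>
      (b.repr (M i j)).support)) with hs
  have hM : M = ∑ k ∈ s, b k • up K (dn (b.coord k) M) := by
    ext i j
    rw [Matrix.sum_apply]
    simp only [Matrix.smul_apply, up, dn, map_apply, of_apply, smul_eq_mul,
      Module.Basis.coord_apply]
    have h1 : M i j = ∑ k ∈ (b.repr (M i j)).support, (b.repr (M i j)) k • b k := by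
      conv_lhs => rw [← b.linearCombination_repr (M i j)]
      rw [Finsupp.linearCombination_apply, Finsupp.sum]
    have h2 : (b.repr (M i j)).support ⊆ s := by
      intro k hk
      rw [hs, Finset.mem_biUnion]
      exact ⟨i, Finset.mem_univ _, Finset.mem_biUnion.mpr ⟨j, Finset.mem_univ _, hk⟩⟩
    conv_lhs => rw [h1]
    rw [Finset.sum_subset h2]
    · apply Finset.sum_congr rfl
      intro k _
      rw [Algebra.smul_def, mul_comm]
    · intro k _ hk
      rw [Finsupp.notMem_support_iff] at hk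
      rw [hk, zero_smul]
  rw [hM]
  exact Submodule.sum_mem _ (fun k _ => Submodule.smul_mem _ _ (up_mem (h _)))

/-- extension of scalars of a subalgebra -/
noncomputable def upa (K : Type) [Field K] [Algebra F K]
    (C : Subalgebra F (Matrix (Fin N) (Fin N) F)) : Subalgebra K (Matrix (Fin N) (Fin N) K) :=
  Algebra.adjoin K (up K '' (C : Set (Matrix (Fin N) (Fin N) F)))

theorem mem_upa {C : Subalgebra F (Matrix (Fin N) (Fin N) F)} {M : Matrix (Fin N) (Fin N) K} :
    M ∈ upa K C ↔ M ∈ ups K (Subalgebra.toSubmodule C) := by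
  have h : Subalgebra.toSubmodule (upa K C) = ups K (Subalgebra.toSubmodule C) := by
    unfold upa ups
    rw [Algebra.adjoin_eq_span]
    congr 1
    apply Set.Subset.antisymm
    · intro x hx
      induction hx using Submonoid.closure_induction with
      | mem y hy => exact hy
      | one => exact ⟨1, C.one_mem, up_one⟩
      | mul y z _ _ hy hz =>
        obtain ⟨A, hA, rfl⟩ := hy
        obtain ⟨B, hB, rfl⟩ := hz
        exact ⟨A * B, C.mul_mem hA hB, up_mul A B⟩
    · rintro _ ⟨A, hA, rfl⟩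
      exact Submonoid.subset_closure ⟨A, hA, rfl⟩
  rw [← h]; rfl

theorem upa_ind {C : Subalgebra F (Matrix (Fin N) (Fin N) F)}
    (P : Matrix (Fin N) (Fin N) K → Prop) (h1 : ∀ A ∈ C, P (up K A)) (h0 : P 0)
    (ha : ∀ A B, P A → P B → P (A + B)) (hs : ∀ (w : K) A, P A → P (w • A))
    {M : Matrix (Fin N) (Fin N) K} (hM : M ∈ upa K C) : P M :=
  ups_ind P (fun A hA => h1 A hA) h0 ha hs (mem_upa.mp hM)

theorem up_mema {C : Subalgebra F (Matrix (Fin N) (Fin N) F)} {A : Matrix (Fin N) (Fin N) F}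
    (h : A ∈ C) : up K A ∈ upa K C := Algebra.subset_adjoin ⟨A, h, rfl⟩

theorem herm_up {J : Matrix (Fin N) (Fin N) F} {C : Subalgebra F (Matrix (Fin N) (Fin N) F)}
    (h : Herm J C) : Herm (up K J) (upa K C) := by
  obtain ⟨h1, h2, h3, h4, h5⟩ := h
  refine ⟨?_, ?_, ?_, ?_, ?_⟩
  · rcases h1 with h1 | h1
    · left; rw [← up_transpose, h1]
    · right; rw [← up_transpose, h1, up_neg]
  · rw [up_det]
    exact (_root_.map_ne_zero _).mpr h2
  · intro A hA B hB
    refine upa_ind (fun A => A * B = B * A) ?_ ?_ ?_ ?_ hA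
    · intro A hA
      refine upa_ind (fun B => up K A * B = B * up K A) ?_ ?_ ?_ ?_ hB
      · intro B hB
        rw [← up_mul, ← up_mul, h3 A hA B hB]
      · simp
      · intro X Y hX hY
        rw [mul_add, add_mul, hX, hY]
      · intro w X hX
        rw [mul_smul_comm, smul_mul_assoc, hX]
    · simp
    · intro X Y hX hY
      rw [mul_add, add_mul, hX, hY]
    · intro w X hX
      rw [mul_smul_comm, smul_mul_assoc, hX]
  · intro A hA
    refine upa_ind (fun A => ∃ A' ∈ upa K C, Aᵀ * up K J = up K J * A') ?_ ?_ ?_ ?_ hA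
    · intro A hA
      obtain ⟨A', hA', he⟩ := h4 A hA
      exact ⟨up K A', up_mema hA', by rw [← up_transpose, ← up_mul, ← up_mul, he]⟩
    · exact ⟨0, zero_mem _, by simp⟩
    · rintro X Y ⟨X', hX', hX⟩ ⟨Y', hY', hY⟩
      exact ⟨X' + Y', add_mem hX' hY', by rw [transpose_add, add_mul, mul_add, hX, hY]⟩
    · rintro w X ⟨X', hX', hX⟩
      exact ⟨w • X', Subalgebra.smul_mem _ hX' w,
        by rw [transpose_smul, smul_mul_assoc, mul_smul_comm, hX]⟩
  · obtain ⟨A, hA, A', hA', he, hd⟩ := h5
    refine ⟨up K A, up_mema hA, up K A', up_mema hA', ?_, ?_⟩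
    · rw [← up_transpose, ← up_mul, ← up_mul, he]
    · rw [← up_sub, up_det]
      exact (_root_.map_ne_zero _).mpr hd

theorem sulie_up {J : Matrix (Fin N) (Fin N) F} {C : Subalgebra F (Matrix (Fin N) (Fin N) F)}
    {X : Matrix (Fin N) (Fin N) F} (h : SULie J C X) : SULie (up K J) (upa K C) (up K X) := by
  obtain ⟨h1, h2, h3⟩ := h
  refine ⟨?_, ?_, ?_⟩
  · intro A hA
    refine upa_ind (fun A => up K X * A = A * up K X) ?_ ?_ ?_ ?_ hA
    · intro A hA
      rw [← up_mul, ← up_mul, h1 A hA]
    · simp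
    · intro A B hA hB
      rw [mul_add, add_mul, hA, hB]
    · intro w A hA
      rw [mul_smul_comm, smul_mul_assoc, hA]
  · rw [← up_transpose, ← up_mul, ← up_mul, ← up_add, h2, up_zero]
  · intro A hA
    refine upa_ind (fun A => (up K X * A).trace = 0) ?_ ?_ ?_ ?_ hA
    · intro A hA
      rw [← up_mul, up_trace, h3 A hA, map_zero]
    · simp
    · intro A B hA hB
      rw [mul_add, trace_add, hA, hB, add_zero]
    · intro w A hA
      rw [mul_smul_comm, trace_smul, hA, smul_zero]

end base

theorem lieu (h : S_ROOTU) (F : Type) [Field F] [CharZero F] (N : ℕ)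
    (J g : Matrix (Fin N) (Fin N) F) (c : F) (L : Submodule F (Matrix (Fin N) (Fin N) F))
    (C : Subalgebra F (Matrix (Fin N) (Fin N) F))
    (hH : Herm J C) (hc : c ≠ 0) (hS : Sim J g c) (hsep : g.charpoly.Separable)
    (hgen : Generic g.charpoly c)
    (h1 : ∀ Z ∈ L, ∃ μ : F, Zᵀ * J + J * Z = μ • J) (h2 : ∀ X ∈ L, ∀ Y ∈ L, X * Y - Y * X ∈ L)
    (h3 : ∀ Z ∈ L, g * Z * g⁻¹ ∈ L)
    (h4 : ∀ A ∈ C, A * g = g * A) (h5 : ∀ A ∈ C, ∀ Z ∈ L, A * Z = Z * A)
    (h6 : ∀ X, (∀ A ∈ C, X * A = A * X) →
      X ∈ Algebra.adjoin F (L : Set (Matrix (Fin N) (Fin N) F)))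
    (X : Matrix (Fin N) (Fin N) F) (hX : SULie J C X) : X ∈ L := by
  set K := AlgebraicClosure F with hK
  haveI : CharZero K := charZero_of_injective_algebraMap (algebraMap F K).injective
  have hgdet : g.det ≠ 0 := by
    intro h0
    have e := congrArg Matrix.det hS
    rw [det_mul, det_mul, h0, mul_zero, det_smul] at e
    exact (mul_ne_zero (pow_ne_zero _ hc) hH.2.1) e.symm
  have hcp : (up K g).charpoly = g.charpoly.map (algebraMap F K) := by
    rw [up_eq, RingHom.mapMatrix_apply, Matrix.charpoly_map]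
  apply mem_of_up_mem (K := K)
  refine h K N (up K J) (up K g) (algebraMap F K c) (ups K L) (upa K C) (herm_up hH)
    ((_root_.map_ne_zero _).mpr hc) ?_ (IsAlgClosed.splits _) ?_ ?_ ?_ ?_ ?_ ?_ ?_ ?_ _ (sulie_up hX)
  · unfold Sim
    rw [← up_transpose, ← up_mul, ← up_mul, hS, up_smul]
  · rw [hcp]
    exact hsep.map
  · intro x y z w hx hy hz hw hxy he
    rw [hcp, IsRoot.def, eval_map_algebraMap] at hx hy hz hw
    exact hgen x y z w hx hy hz hw hxy he
  · intro Z hZ
    refine ups_ind (fun Z => ∃ μ : K, Zᵀ * up K J + up K J * Z = μ • up K J) ?_ ?_ ?_ ?_ hZ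
    · intro Z hZ
      obtain ⟨m, hm⟩ := h1 Z hZ
      exact ⟨algebraMap F K m, by rw [← up_transpose, ← up_mul, ← up_mul, ← up_add, hm, up_smul]⟩
    · exact ⟨0, by simp⟩
    · rintro A B ⟨a, ha⟩ ⟨b, hb⟩
      refine ⟨a + b, ?_⟩
      rw [transpose_add, add_mul, mul_add, add_smul, ← ha, ← hb]
      abel
    · rintro w A ⟨a, ha⟩
      refine ⟨w * a, ?_⟩
      rw [transpose_smul, smul_mul_assoc, mul_smul_comm, mul_smul, ← ha, smul_add]
  · intro A hA B hB
    refine ups_ind (fun A => A * B - B * A ∈ ups K L) ?_ ?_ ?_ ?_ hA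
    · intro A hA
      refine ups_ind (fun B => up K A * B - B * up K A ∈ ups K L) ?_ ?_ ?_ ?_ hB
      · intro B hB
        rw [← up_mul, ← up_mul, ← up_sub]
        exact up_mem (h2 A hA B hB)
      · simp
      · intro X Y hX hY
        have e : up K A * (X + Y) - (X + Y) * up K A =
            (up K A * X - X * up K A) + (up K A * Y - Y * up K A) := by
          rw [mul_add, add_mul]; abel
        rw [e]
        exact add_mem hX hY
      · intro w X hX
        rw [mul_smul_comm, smul_mul_assoc, ← smul_sub]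
        exact Submodule.smul_mem _ _ hX
    · simp
    · intro X Y hX hY
      have e : (X + Y) * B - B * (X + Y) = (X * B - B * X) + (Y * B - B * Y) := by
        rw [mul_add, add_mul]; abel
      rw [e]
      exact add_mem hX hY
    · intro w X hX
      rw [mul_smul_comm, smul_mul_assoc, ← smul_sub]
      exact Submodule.smul_mem _ _ hX
  · intro Z hZ
    refine ups_ind (fun Z => up K g * Z * (up K g)⁻¹ ∈ ups K L) ?_ ?_ ?_ ?_ hZ
    · intro Z hZ
      rw [← up_inv _ hgdet, ← up_mul, ← up_mul]
      exact up_mem (h3 Z hZ)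
    · simp
    · intro X Y hX hY
      rw [mul_add, add_mul]
      exact add_mem hX hY
    · intro w X hX
      rw [mul_smul_comm, smul_mul_assoc]
      exact Submodule.smul_mem _ _ hX
  · intro A hA
    refine upa_ind (fun A => A * up K g = up K g * A) ?_ ?_ ?_ ?_ hA
    · intro A hA
      rw [← up_mul, ← up_mul, h4 A hA]
    · simp
    · intro X Y hX hY
      rw [mul_add, add_mul, hX, hY]
    · intro w X hX
      rw [mul_smul_comm, smul_mul_assoc, hX]
  · intro A hA Z hZ
    refine upa_ind (fun A => A * Z = Z * A) ?_ ?_ ?_ ?_ hA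
    · intro A hA
      refine ups_ind (fun Z => up K A * Z = Z * up K A) ?_ ?_ ?_ ?_ hZ
      · intro Z hZ
        rw [← up_mul, ← up_mul, h5 A hA Z hZ]
      · simp
      · intro X Y hX hY
        rw [mul_add, add_mul, hX, hY]
      · intro w X hX
        rw [mul_smul_comm, smul_mul_assoc, hX]
    · simp
    · intro X Y hX hY
      rw [mul_add, add_mul, hX, hY]
    · intro w X hX
      rw [mul_smul_comm, smul_mul_assoc, hX]
  · intro Y hY
    have hlam : ∀ lam : K →ₗ[F] F, dn lam Y ∈
        Subalgebra.toSubmodule (Algebra.adjoin F (L : Set (Matrix (Fin N) (Fin N) F))) := by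
      intro lam
      rw [Subalgebra.mem_toSubmodule]
      apply h6
      intro A hA
      rw [← dn_mul_up, ← dn_up_mul, hY _ (up_mema hA)]
    have hmem := mem_ups_of_dn hlam
    have hsub : ∀ B ∈ Algebra.adjoin F (L : Set (Matrix (Fin N) (Fin N) F)),
        up K B ∈ Algebra.adjoin K ((ups K L : Submodule K _) : Set (Matrix (Fin N) (Fin N) K)) := by
      intro B hB
      refine Algebra.adjoin_induction (p := fun B _ => up K B ∈
        Algebra.adjoin K ((ups K L : Submodule K _) : Set (Matrix (Fin N) (Fin N) K)))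
        ?_ ?_ ?_ ?_ hB
      · intro B hB
        exact Algebra.subset_adjoin (up_mem hB)
      · intro r
        rw [Algebra.algebraMap_eq_smul_one, up_smul, up_one]
        exact Subalgebra.smul_mem _ (one_mem _) _
      · intro A B _ _ hA hB
        rw [up_add]
        exact add_mem hA hB
      · intro A B _ _ hA hB
        rw [up_mul]
        exact mul_mem hA hB
    refine ups_ind (fun M => M ∈ Algebra.adjoin K ((ups K L : Submodule K _) :
      Set (Matrix (Fin N) (Fin N) K))) ?_ (zero_mem _) (fun A B hA hB => add_mem hA hB)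
      (fun w A hA => Subalgebra.smul_mem _ hA w) hmem
    intro B hB
    exact hsub B hB

theorem t (h : S_ROOTU) : S_LIEU := by
  intro l _ N J g c L C hH hc hS hsep hgen h1 h2 h3 h4 h5 h6 X hX
  exact lieu h ℚ_[l] N J g c L C hH hc hS hsep hgen h1 h2 h3 h4 h5 h6 X hX

end Pool.Agent.Y217.SU
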